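import Pool.Agent.Lib.MP_8fffab_lc.Defs

/-!
# Decomposable Boolean circuits (DNNF) for Set Cover: definitions

The predicate `HasCover` (the Set Cover problem itself) is the one of
`Pool.Agent.Lib.MP_8fffab_lc.Defs`.
-/

namespace Pool.Agent.Lib.MP_8fffab_lc_DNNF

open Pool.Agent.Lib.MP_8fffab_lc

/-- The gates of a Boolean circuit in negation normal form with one input variable for each
`a : ι`: the literal which is true if the variable `a` has the value `β`, a constant, the
conjunction of two earlier gates, the disjunction of a list of earlier gates. A circuit is a
sequence `C : ℕ → Gate ι` of gates together with the number of its output gate; its gates after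
the output gate play no role. -/
inductive Gate (ι : Type) : Type
  | lit (a : ι) (β : Bool) : Gate ι
  | const (β : Bool) : Gate ι
  | and (i j : ℕ) : Gate ι
  | or (l : List ℕ) : Gate ι

/-- The value of gate number `k` of the circuit `C` on the input `x`. (A gate may only refer to
earlier gates: an `and` gate that violates this has value false, and an `or` gate ignores the
members of its list which are not earlier gates.) -/
def eval {ι : Type} (C : ℕ → Gate ι) (x : ι → Bool) (k : ℕ) : Prop :=
  match C k with
  | .lit a β => x a = β
  | .const β => β = true
  | .and i j => if _h : i < k ∧ j < k then eval C x i ∧ eval C x j else False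
  | .or l => ∃ i, i ∈ l ∧ ∃ _h : i < k, eval C x i
termination_by k
decreasing_by all_goals omega

/-- The variable `a` occurs in a literal below (or at) gate number `k`. -/
inductive Occurs {ι : Type} (C : ℕ → Gate ι) (a : ι) : ℕ → Prop
  | lit {k : ℕ} {β : Bool} (h : C k = .lit a β) : Occurs C a k
  | andl {k i j : ℕ} (h : C k = .and i j) (hi : i < k) (hj : j < k) (ho : Occurs C a i) :
      Occurs C a k
  | andr {k i j : ℕ} (h : C k = .and i j) (hi : i < k) (hj : j < k) (ho : Occurs C a j) :
      Occurs C a k
  | or {k i : ℕ} {l : List ℕ} (h : C k = .or l) (hl : i ∈ l) (hi : i < k) (ho : Occurs C a i) :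
      Occurs C a k

/-- The circuit `C` with output gate `out` is decomposable: no variable occurs below both
arguments of an `and` gate. (A circuit in negation normal form with this property is called a
DNNF.) -/
def Decomposable {ι : Type} (C : ℕ → Gate ι) (out : ℕ) : Prop :=
  ∀ k ≤ out, ∀ i j, C k = .and i j → ∀ a, ¬ (Occurs C a i ∧ Occurs C a j)

/-- The number of `and` gates among the gates `0, …, out` of the circuit `C`. -/
noncomputable def numAnd {ι : Type} (C : ℕ → Gate ι) (out : ℕ) : ℕ :=
  {k : ℕ | k ≤ out ∧ ∃ i j, C k = Gate.and i j}.ncard

/-- The circuit `C` with output gate `out`, which has one input variable for each subset `A` of the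
universe `{0, …, n-1}` (true if `A` is in the family), solves Set Cover with budget `k` for all
families of `d`-element subsets: it is true exactly on the yes-instances. -/
def Solves {n : ℕ} (C : ℕ → Gate (Finset (Fin n))) (out d k : ℕ) : Prop :=
  ∀ F : Finset (Finset (Fin n)), (∀ A ∈ F, A.card = d) →
    (eval C (fun A => decide (A ∈ F)) out ↔ HasCover F k)

end Pool.Agent.Lib.MP_8fffab_lc_DNNF
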