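import Pool.Agent.Lib.MP_8fffab_lc_DNNF.Defs
import Pool.Agent.Lib.MP_8fffab_lc_Linear.Numeric

namespace Pool.Agent.Lib.MP_8fffab_lc_DNNF

open Finset
open Pool.Agent.Lib.MP_8fffab_lc (HasCover idx block fam mem_fam mem_block card_block block_injective
  card_fam fam_cover cover_eq idx_zero idx_succ stab_bound)

/-! ### Certificates (proof trees) -/

/-- There is a proof tree for gate `k` whose positive literals are `P` and whose negative literals
are `N`. -/
inductive Cert {ι : Type} [DecidableEq ι] (C : ℕ → Gate ι) : ℕ → Finset ι → Finset ι → Prop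
  | pos {k : ℕ} {a : ι} (h : C k = .lit a true) : Cert C k {a} ∅
  | neg {k : ℕ} {a : ι} (h : C k = .lit a false) : Cert C k ∅ {a}
  | const {k : ℕ} (h : C k = .const true) : Cert C k ∅ ∅
  | and {k i j : ℕ} {P₁ N₁ P₂ N₂ : Finset ι} (h : C k = .and i j) (hi : i < k) (hj : j < k)
      (h₁ : Cert C i P₁ N₁) (h₂ : Cert C j P₂ N₂) : Cert C k (P₁ ∪ P₂) (N₁ ∪ N₂)
  | or {k i : ℕ} {l : List ℕ} {P N : Finset ι} (h : C k = .or l) (hl : i ∈ l) (hi : i < k)
      (hc : Cert C i P N) : Cert C k P N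

section general

variable {ι : Type} [DecidableEq ι] {C : ℕ → Gate ι}

theorem eval_of_cert {x : ι → Bool} {k : ℕ} {P N : Finset ι} (h : Cert C k P N) :
    (∀ a ∈ P, x a = true) → (∀ a ∈ N, x a = false) → eval C x k := by
  induction h with
  | pos h =>
    intro hP _
    rw [eval, h]
    exact hP _ (Finset.mem_singleton_self _)
  | neg h =>
    intro _ hN
    rw [eval, h]
    exact hN _ (Finset.mem_singleton_self _)
  | const h => intro _ _; rw [eval, h]
  | and h hi hj _ _ ih₁ ih₂ =>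
    intro hP hN
    rw [eval, h]
    simp only [hi, hj, and_self, dite_true]
    exact ⟨ih₁ (fun a ha => hP a (Finset.mem_union_left _ ha))
      (fun a ha => hN a (Finset.mem_union_left _ ha)),
      ih₂ (fun a ha => hP a (Finset.mem_union_right _ ha))
      (fun a ha => hN a (Finset.mem_union_right _ ha))⟩
  | or h hl hi _ ih =>
    intro hP hN
    rw [eval, h]
    exact ⟨_, hl, hi, ih hP hN⟩

theorem cert_of_eval {x : ι → Bool} (k : ℕ) : eval C x k →
    ∃ P N, Cert C k P N ∧ (∀ a ∈ P, x a = true) ∧ ∀ a ∈ N, x a = false := by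
  induction k using Nat.strong_induction_on with
  | _ k ih =>
    intro hk
    rw [eval] at hk
    rcases h : C k with ⟨a, β⟩ | β | ⟨i, j⟩ | l
    · rw [h] at hk
      cases β with
      | true => exact ⟨{a}, ∅, .pos h, by simpa using hk, by simp⟩
      | false => exact ⟨∅, {a}, .neg h, by simp, by simpa using hk⟩
    · rw [h] at hk
      have hβ : β = true := hk
      subst hβ
      exact ⟨∅, ∅, .const h, by simp, by simp⟩
    · rw [h] at hk
      by_cases hij : i < k ∧ j < k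
      · simp only [hij, and_self, dite_true] at hk
        obtain ⟨P₁, N₁, hc₁, hp₁, hn₁⟩ := ih i hij.1 hk.1
        obtain ⟨P₂, N₂, hc₂, hp₂, hn₂⟩ := ih j hij.2 hk.2
        refine ⟨P₁ ∪ P₂, N₁ ∪ N₂, .and h hij.1 hij.2 hc₁ hc₂, ?_, ?_⟩
        · intro a ha
          rcases Finset.mem_union.1 ha with h' | h'
          exacts [hp₁ a h', hp₂ a h']
        · intro a ha
          rcases Finset.mem_union.1 ha with h' | h'
          exacts [hn₁ a h', hn₂ a h']
      · simp only [hij, dite_false] at hk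
    · rw [h] at hk
      obtain ⟨i, hl, hi, he⟩ := hk
      obtain ⟨P, N, hc, hp, hn⟩ := ih i hi he
      exact ⟨P, N, .or h hl hi hc, hp, hn⟩

theorem occurs_of_cert {k : ℕ} {P N : Finset ι} (h : Cert C k P N) :
    ∀ a, a ∈ P ∨ a ∈ N → Occurs C a k := by
  induction h with
  | pos h =>
    rintro a (ha | ha)
    · rw [Finset.mem_singleton] at ha
      subst ha
      exact .lit h
    · simp at ha
  | neg h =>
    rintro a (ha | ha)
    · simp at ha
    · rw [Finset.mem_singleton] at ha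
      subst ha
      exact .lit h
  | const h => rintro a (ha | ha) <;> simp at ha
  | and h hi hj _ _ ih₁ ih₂ =>
    rintro a (ha | ha)
    · rcases Finset.mem_union.1 ha with h' | h'
      · exact .andl h hi hj (ih₁ a (Or.inl h'))
      · exact .andr h hi hj (ih₂ a (Or.inl h'))
    · rcases Finset.mem_union.1 ha with h' | h'
      · exact .andl h hi hj (ih₁ a (Or.inr h'))
      · exact .andr h hi hj (ih₂ a (Or.inr h'))
  | or h hl hi _ ih =>
    intro a ha
    exact .or h hl hi (ih a ha)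

theorem cert_disjoint {out : ℕ} (hdec : Decomposable C out) {k : ℕ} {P N : Finset ι}
    (h : Cert C k P N) : k ≤ out → ∀ a, a ∈ P → a ∉ N := by
  induction h with
  | pos h => intro _ a _; simp
  | neg h => intro _ a ha; simp at ha
  | const h => intro _ a _; simp
  | @and k i j P₁ N₁ P₂ N₂ h hi hj h₁ h₂ ih₁ ih₂ =>
    intro hk a ha hn
    rcases Finset.mem_union.1 ha with h' | h' <;> rcases Finset.mem_union.1 hn with h'' | h''
    · exact ih₁ (by omega) a h' h''
    · exact hdec k hk i j h a ⟨occurs_of_cert h₁ a (Or.inl h'), occurs_of_cert h₂ a (Or.inr h'')⟩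
    · exact hdec k hk i j h a ⟨occurs_of_cert h₁ a (Or.inr h''), occurs_of_cert h₂ a (Or.inl h')⟩
    · exact ih₂ (by omega) a h' h''
  | or h hl hi _ ih => intro hk; exact ih (by omega)

theorem eval_self {out : ℕ} (hdec : Decomposable C out) {P N : Finset ι}
    (h : Cert C out P N) : eval C (fun a => decide (a ∈ P)) out := by
  refine eval_of_cert h (fun a ha => by simpa using ha) (fun a ha => ?_)
  have : a ∉ P := fun h' => cert_disjoint hdec h le_rfl a h' ha
  simpa using this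

/-- Every large proof tree passes through an `and` gate both of whose arguments are small. -/
theorem trace (C : ℕ → Gate ι) (out h : ℕ) (hh : 1 ≤ h) (hdec : Decomposable C out) (k : ℕ) :
    ∀ (P N R S : Finset ι), k ≤ out → Cert C k P N → h < P.card → (∀ a ∈ R, ¬ Occurs C a k) →
      (∀ P' N', Cert C k P' N' → Cert C out (P' ∪ R) (N' ∪ S)) →
      ∃ g i j P₁ N₁ P₂ N₂ R₀ S₀, g ≤ out ∧ C g = .and i j ∧ Cert C i P₁ N₁ ∧ Cert C j P₂ N₂ ∧
        P₁.card ≤ h ∧ P₂.card ≤ h ∧ h < P₁.card + P₂.card ∧ P ∪ R = P₁ ∪ P₂ ∪ R₀ ∧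
        (∀ a ∈ R₀, ¬ Occurs C a i ∧ ¬ Occurs C a j) ∧
        ∀ P₁' N₁' P₂' N₂', Cert C i P₁' N₁' → Cert C j P₂' N₂' →
          Cert C out (P₁' ∪ P₂' ∪ R₀) (N₁' ∪ N₂' ∪ S₀) := by
  induction k using Nat.strong_induction_on with
  | _ k ih =>
    intro P N R S hk hm hP hR henv
    cases hm with
    | pos hg => simp at hP; omega
    | neg hg => simp at hP
    | const hg => simp at hP
    | @or _ i l _ _ hg hl hi hc =>
      exact ih _ hi P N R S (by omega) hc hP (fun a ha ho => hR a ha (.or hg hl hi ho))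
        (fun P' N' h' => henv P' N' (.or hg hl hi h'))
    | @and _ i j P₁ N₁ P₂ N₂ hg hi hj h₁ h₂ =>
      by_cases hb₁ : h < P₁.card
      · obtain ⟨g, i', j', Q₁, M₁, Q₂, M₂, R₀, S₀, a1, a2, a3, a4, a5, a6, a7, a8, a9, a10⟩ :=
          ih i hi P₁ N₁ (P₂ ∪ R) (N₂ ∪ S) (by omega) h₁ hb₁ (by
            intro a ha ho
            rcases Finset.mem_union.1 ha with h' | h'
            · exact hdec k hk i j hg a ⟨ho, occurs_of_cert h₂ a (Or.inl h')⟩
            · exact hR a h' (.andl hg hi hj ho)) (by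
            intro P' N' h'
            have := henv _ _ (.and hg hi hj h' h₂)
            rwa [Finset.union_assoc, Finset.union_assoc] at this)
        refine ⟨g, i', j', Q₁, M₁, Q₂, M₂, R₀, S₀, a1, a2, a3, a4, a5, a6, a7, ?_, a9, a10⟩
        rw [← a8, Finset.union_assoc]
      · by_cases hb₂ : h < P₂.card
        · obtain ⟨g, i', j', Q₁, M₁, Q₂, M₂, R₀, S₀, a1, a2, a3, a4, a5, a6, a7, a8, a9, a10⟩ :=
            ih j hj P₂ N₂ (P₁ ∪ R) (N₁ ∪ S) (by omega) h₂ hb₂ (by
              intro a ha ho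
              rcases Finset.mem_union.1 ha with h' | h'
              · exact hdec k hk i j hg a ⟨occurs_of_cert h₁ a (Or.inl h'), ho⟩
              · exact hR a h' (.andr hg hi hj ho)) (by
              intro P' N' h'
              have := henv _ _ (.and hg hi hj h₁ h')
              have e1 : P' ∪ (P₁ ∪ R) = P₁ ∪ P' ∪ R := by
                rw [← Finset.union_assoc, Finset.union_comm P' P₁]
              have e2 : N' ∪ (N₁ ∪ S) = N₁ ∪ N' ∪ S := by
                rw [← Finset.union_assoc, Finset.union_comm N' N₁]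
              rwa [e1, e2])
          refine ⟨g, i', j', Q₁, M₁, Q₂, M₂, R₀, S₀, a1, a2, a3, a4, a5, a6, a7, ?_, a9, a10⟩
          rw [← a8, ← Finset.union_assoc, Finset.union_comm P₂ P₁]
        · refine ⟨k, i, j, P₁, N₁, P₂, N₂, R, S, hk, hg, h₁, h₂, by omega, by omega, ?_, rfl, ?_,
            ?_⟩
          · exact lt_of_lt_of_le hP (Finset.card_union_le _ _)
          · intro a ha
            exact ⟨fun ho => hR a ha (.andl hg hi hj ho), fun ho => hR a ha (.andr hg hi hj ho)⟩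
          · intro P₁' N₁' P₂' N₂' h₁' h₂'
            exact henv _ _ (.and hg hi hj h₁' h₂')

end general

section main

variable {e m n : ℕ} (φ : Fin (e + 1) × Fin m ≃ Fin n) {C : ℕ → Gate (Finset (Fin n))} {out : ℕ}

theorem cert_fam (hC : Solves C out (e + 1) m) (hdec : Decomposable C out)
    (σ : Fin e → Equiv.Perm (Fin m)) : ∃ N, Cert C out (fam φ σ) N := by
  classical
  have hcard : ∀ A ∈ fam φ σ, A.card = e + 1 := by
    intro A hA
    obtain ⟨i, rfl⟩ := (mem_fam φ σ A).1 hA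
    exact card_block φ σ i
  have h1 := (hC (fam φ σ) hcard).2 (fam_cover φ σ)
  obtain ⟨P, N, hc, hp, hn⟩ := cert_of_eval _ h1
  have hsub : P ⊆ fam φ σ := fun A hA => by simpa using hp A hA
  obtain ⟨G, hG, _, hcov⟩ := (hC P (fun A hA => hcard A (hsub hA))).1 (eval_self hdec hc)
  have h2 : fam φ σ ⊆ P := (cover_eq φ σ (hG.trans hsub) hcov).trans hG
  have h3 : P = fam φ σ := Finset.Subset.antisymm hsub h2
  exact ⟨N, h3 ▸ hc⟩

theorem cut_subset (hC : Solves C out (e + 1) m) (hdec : Decomposable C out)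
    {σ τ : Fin e → Equiv.Perm (Fin m)}
    {q r q' r' N : Finset (Finset (Fin n))} (hσ : fam φ σ = q ∪ r)
    (hτ : fam φ τ = q' ∪ r') (hdis : ∀ A ∈ q, A ∉ r) (h1 : Cert C out (q' ∪ r) N) :
    ∀ u, block φ σ (idx φ σ u) ∈ q → block φ τ (idx φ τ u) ∈ q' := by
  classical
  intro u hu
  have hcard : ∀ A ∈ q' ∪ r, A.card = e + 1 := by
    intro A hA
    rcases Finset.mem_union.1 hA with h | h
    · have : A ∈ fam φ τ := by rw [hτ]; exact Finset.mem_union_left _ h
      obtain ⟨i, rfl⟩ := (mem_fam φ τ A).1 this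
      exact card_block φ τ i
    · have : A ∈ fam φ σ := by rw [hσ]; exact Finset.mem_union_right _ h
      obtain ⟨i, rfl⟩ := (mem_fam φ σ A).1 this
      exact card_block φ σ i
  obtain ⟨G, hG, _, hcov⟩ := (hC _ hcard).1 (eval_self hdec h1)
  obtain ⟨A, hA, huA⟩ := hcov u
  rcases Finset.mem_union.1 (hG hA) with h | h
  · have : A ∈ fam φ τ := by rw [hτ]; exact Finset.mem_union_left _ h
    obtain ⟨i, rfl⟩ := (mem_fam φ τ A).1 this
    rw [mem_block] at huA
    rw [huA]; exact h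
  · exfalso
    have : A ∈ fam φ σ := by rw [hσ]; exact Finset.mem_union_right _ h
    obtain ⟨i, rfl⟩ := (mem_fam φ σ A).1 this
    rw [mem_block] at huA
    rw [huA] at hu
    exact hdis _ hu h

end main

theorem lower_bound (e h : ℕ) (hh : 1 ≤ h) (n : ℕ) (φ : Fin (e + 1) × Fin (2 * h) ≃ Fin n)
    (C : ℕ → Gate (Finset (Fin n))) (out : ℕ) (hdec : Decomposable C out)
    (hC : Solves C out (e + 1) (2 * h)) :
    (Nat.centralBinom h) ^ e ≤ numAnd C out := by
  classical
  -- the trace of the exact cover of `σ`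
  have htr : ∀ σ : Fin e → Equiv.Perm (Fin (2 * h)),
      ∃ g i j, ∃ q₁ q₂ r₀ N₁ N₂ S₀ : Finset (Finset (Fin n)), g ≤ out ∧ C g = .and i j ∧
        q₁.card ≤ h ∧ q₂.card ≤ h ∧ h < q₁.card + q₂.card ∧ fam φ σ = q₁ ∪ q₂ ∪ r₀ ∧
        (∀ a ∈ r₀, ¬ Occurs C a i ∧ ¬ Occurs C a j) ∧
        Cert C i q₁ N₁ ∧ Cert C j q₂ N₂ ∧
        ∀ q₁' q₂' N₁' N₂', Cert C i q₁' N₁' → Cert C j q₂' N₂' →
          Cert C out (q₁' ∪ q₂' ∪ r₀) (N₁' ∪ N₂' ∪ S₀) := by
    intro σ
    have h1 : (fam φ σ).card = 2 * h := card_fam φ σ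
    obtain ⟨N, hN⟩ := cert_fam φ hC hdec σ
    obtain ⟨g, i, j, q₁, N₁, q₂, N₂, r₀, S₀, a1, a2, a3, a4, a5, a6, a7, a8, a9, a10⟩ :=
      trace C out h hh hdec out (fam φ σ) N ∅ ∅ le_rfl hN (by omega)
        (fun a ha => absurd ha (Finset.notMem_empty _)) (fun P' N' hq' => by simpa using hq')
    refine ⟨g, i, j, q₁, q₂, r₀, N₁, N₂, S₀, a1, a2, a5, a6, a7, by simpa using a8, a9, a3, a4, ?_⟩
    intro q₁' q₂' N₁' N₂' b1 b2
    exact a10 q₁' N₁' q₂' N₂' b1 b2
  choose g i j q₁ q₂ r₀ N₁ N₂ S₀ hg1 hg2 hq₁ hq₂ hq₁₂ hsum hocc hm₁ hm₂ henv using htr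
  have hd12 : ∀ σ, ∀ A ∈ q₁ σ, A ∉ q₂ σ := by
    intro σ A h1 h2
    exact hdec (g σ) (hg1 σ) _ _ (hg2 σ) A
      ⟨occurs_of_cert (hm₁ σ) A (Or.inl h1), occurs_of_cert (hm₂ σ) A (Or.inl h2)⟩
  have hd10 : ∀ σ, ∀ A ∈ q₁ σ, A ∉ r₀ σ := by
    intro σ A h1 h2
    exact (hocc σ A h2).1 (occurs_of_cert (hm₁ σ) A (Or.inl h1))
  have hd20 : ∀ σ, ∀ A ∈ q₂ σ, A ∉ r₀ σ := by
    intro σ A h1 h2
    exact (hocc σ A h2).2 (occurs_of_cert (hm₂ σ) A (Or.inl h1))
  -- the colouring of the blocks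
  let col : (Fin e → Equiv.Perm (Fin (2 * h))) → Fin (2 * h) → Fin 3 := fun σ a =>
    if block φ σ a ∈ q₁ σ then 0 else if block φ σ a ∈ q₂ σ then 1 else 2
  have hcol : ∀ σ τ, g σ = g τ → ∀ u, col σ (idx φ σ u) = col τ (idx φ τ u) := by
    intro σ τ hgg u
    have hij : i σ = i τ ∧ j σ = j τ := by
      have h1 := hg2 σ
      rw [hgg, hg2 τ] at h1
      injection h1 with h2 h3
      exact ⟨h2.symm, h3.symm⟩
    have hA : ∀ σ τ, i σ = i τ → j σ = j τ → block φ σ (idx φ σ u) ∈ q₁ σ →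
        block φ τ (idx φ τ u) ∈ q₁ τ := by
      intro σ τ h1 h2
      refine cut_subset φ hC hdec (r := q₂ σ ∪ r₀ σ) (r' := q₂ τ ∪ r₀ τ)
        (N := N₁ τ ∪ N₂ σ ∪ S₀ σ) ?_ ?_ ?_ ?_ u
      · rw [hsum σ, Finset.union_assoc]
      · rw [hsum τ, Finset.union_assoc]
      · intro A hA hA'
        rcases Finset.mem_union.1 hA' with h | h
        exacts [hd12 σ A hA h, hd10 σ A hA h]
      · rw [← Finset.union_assoc]
        exact henv σ _ _ _ _ (by rw [h1]; exact hm₁ τ) (hm₂ σ)
    have hB : ∀ σ τ, i σ = i τ → j σ = j τ → block φ σ (idx φ σ u) ∈ q₂ σ →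
        block φ τ (idx φ τ u) ∈ q₂ τ := by
      intro σ τ h1 h2
      refine cut_subset φ hC hdec (r := q₁ σ ∪ r₀ σ) (r' := q₁ τ ∪ r₀ τ)
        (N := N₁ σ ∪ N₂ τ ∪ S₀ σ) ?_ ?_ ?_ ?_ u
      · rw [hsum σ, ← Finset.union_assoc, Finset.union_comm (q₂ σ)]
      · rw [hsum τ, ← Finset.union_assoc, Finset.union_comm (q₂ τ)]
      · intro A hA hA'
        rcases Finset.mem_union.1 hA' with h | h
        exacts [hd12 σ A h hA, hd20 σ A hA h]
      · rw [← Finset.union_assoc, Finset.union_comm (q₂ τ)]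
        exact henv σ _ _ _ _ (hm₁ σ) (by rw [h2]; exact hm₂ τ)
    have hA' : block φ σ (idx φ σ u) ∈ q₁ σ ↔ block φ τ (idx φ τ u) ∈ q₁ τ :=
      ⟨hA σ τ hij.1 hij.2, hA τ σ hij.1.symm hij.2.symm⟩
    have hB' : block φ σ (idx φ σ u) ∈ q₂ σ ↔ block φ τ (idx φ τ u) ∈ q₂ τ :=
      ⟨hB σ τ hij.1 hij.2, hB τ σ hij.1.symm hij.2.symm⟩
    simp only [col, hA', hB']
  -- sizes of the colour classes
  have hsize : ∀ (σ) (q : Finset (Finset (Fin n))), (∀ A ∈ q, A ∈ fam φ σ) →
      (univ.filter fun a => block φ σ a ∈ q).card = q.card := by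
    intro σ q hsub
    apply Finset.card_bij (fun a _ => block φ σ a)
    · intro a ha
      simpa using ha
    · intro a _ b _ hab
      exact block_injective φ σ hab
    · intro A hA
      obtain ⟨a, rfl⟩ := (mem_fam φ σ A).1 (hsub A hA)
      exact ⟨a, by simpa using hA, rfl⟩
  have hc0 : ∀ σ, (univ.filter fun a => col σ a = 0).card = (q₁ σ).card := by
    intro σ
    rw [← hsize σ (q₁ σ)]
    · congr 1
      ext a
      simp only [Finset.mem_filter, Finset.mem_univ, true_and, col]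
      split_ifs <;> simp_all
    · intro A hA
      rw [hsum σ]; exact Finset.mem_union_left _ (Finset.mem_union_left _ hA)
  have hc1 : ∀ σ, (univ.filter fun a => col σ a = 1).card = (q₂ σ).card := by
    intro σ
    rw [← hsize σ (q₂ σ)]
    · congr 1
      ext a
      simp only [Finset.mem_filter, Finset.mem_univ, true_and, col]
      by_cases h1 : block φ σ a ∈ q₁ σ
      · have h2 : block φ σ a ∉ q₂ σ := hd12 σ _ h1
        simp [h1, h2]
      · by_cases h2 : block φ σ a ∈ q₂ σ <;> simp [h1, h2]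
    · intro A hA
      rw [hsum σ]; exact Finset.mem_union_left _ (Finset.mem_union_right _ hA)
  -- the number of `σ` with the same gate
  have hfib : ∀ σ₀ : Fin e → Equiv.Perm (Fin (2 * h)),
      (univ.filter fun τ => g τ = g σ₀).card ≤ (h.factorial * h.factorial) ^ e := by
    intro σ₀
    have hst := stab_bound (m := 2 * h) (h := h) rfl (col σ₀) (by rw [hc0]; exact hq₁ σ₀)
      (by rw [hc1]; exact hq₂ σ₀) (by rw [hc0, hc1]; exact (hq₁₂ σ₀).le)
    have h1 : ∀ τ, g τ = g σ₀ → ∀ k : Fin e,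
        col σ₀ ∘ ((σ₀ k).trans (τ k).symm : Equiv.Perm (Fin (2 * h))) = col σ₀ := by
      intro τ hτ k
      have h2 : ∀ a, col τ a = col σ₀ a := by
        intro a
        have := hcol τ σ₀ hτ (φ (0, a))
        rwa [idx_zero, idx_zero] at this
      funext a
      have h3 := hcol τ σ₀ hτ (φ (k.succ, σ₀ k a))
      rw [idx_succ, idx_succ, Equiv.symm_apply_apply, h2] at h3
      exact h3
    let f : {τ // g τ = g σ₀} → (Fin e → {ρ : Equiv.Perm (Fin (2 * h)) // col σ₀ ∘ ρ = col σ₀}) :=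
      fun τ k => ⟨(σ₀ k).trans (τ.1 k).symm, h1 τ.1 τ.2 k⟩
    have hf : Function.Injective f := by
      intro τ τ' hττ
      apply Subtype.ext
      funext k
      have h2 := congrArg Subtype.val (congrFun hττ k)
      have h3 : (τ.1 k).symm = (τ'.1 k).symm := by
        ext a
        have := congrArg (fun ρ : Equiv.Perm (Fin (2 * h)) => (ρ ((σ₀ k).symm a) : ℕ)) h2
        simpa [f] using this
      simpa using congrArg Equiv.symm h3
    have h2 := Fintype.card_le_of_injective f hf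
    rw [Fintype.card_pi, Finset.prod_const, Finset.card_univ, Fintype.card_fin] at h2
    rw [Fintype.card_subtype] at h2
    exact h2.trans (Nat.pow_le_pow_left hst e)
  -- conclusion
  have hcount := Finset.card_le_mul_card_image (f := g)
    (univ : Finset (Fin e → Equiv.Perm (Fin (2 * h)))) ((h.factorial * h.factorial) ^ e) (by
      intro b hb
      obtain ⟨σ₀, _, rfl⟩ := Finset.mem_image.1 hb
      exact hfib σ₀)
  have himg : (univ.image g).card ≤ numAnd C out := by
    unfold numAnd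
    rw [← Set.ncard_coe_finset]
    apply Set.ncard_le_ncard
    · intro b hb
      obtain ⟨σ, _, rfl⟩ := Finset.mem_image.1 (Finset.mem_coe.1 hb)
      exact ⟨hg1 σ, i σ, j σ, hg2 σ⟩
    · exact (Set.finite_le_nat out).subset (fun k hk => hk.1)
  have hcard : (univ : Finset (Fin e → Equiv.Perm (Fin (2 * h)))).card =
      ((2 * h).factorial) ^ e := by
    rw [Finset.card_univ, Fintype.card_pi, Finset.prod_const, Finset.card_univ, Fintype.card_fin,
      Fintype.card_perm, Fintype.card_fin]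
  have hcb : (2 * h).factorial = Nat.centralBinom h * (h.factorial * h.factorial) := by
    have := Nat.choose_mul_factorial_mul_factorial (show h ≤ 2 * h by omega)
    have e1 : 2 * h - h = h := by omega
    rw [e1, ← Nat.centralBinom_eq_two_mul_choose] at this
    rw [← this]; ring
  rw [hcard, hcb, mul_pow] at hcount
  have hpos : 0 < (h.factorial * h.factorial) ^ e := by positivity
  have h2 : (h.factorial * h.factorial) ^ e * (Nat.centralBinom h) ^ e ≤
      (h.factorial * h.factorial) ^ e * numAnd C out := by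
    calc _ = (Nat.centralBinom h) ^ e * (h.factorial * h.factorial) ^ e := by ring
      _ ≤ _ := hcount
      _ ≤ _ := by gcongr
  exact Nat.le_of_mul_le_mul_left h2 hpos

theorem explicit_bound (d h : ℕ) (hd : 1 ≤ d) (hh : 1 ≤ h)
    (C : ℕ → Gate (Finset (Fin (d * (2 * h))))) (out : ℕ) (hdec : Decomposable C out)
    (hC : Solves C out d (2 * h)) :
    (Nat.choose (2 * h) h) ^ (d - 1) ≤ numAnd C out := by
  obtain ⟨e, rfl⟩ := Nat.exists_eq_add_of_le' hd
  rw [← Nat.centralBinom_eq_two_mul_choose]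
  exact lower_bound e h hh _ finProdFinEquiv C out hdec hC

theorem asymptotic_bound (b : ℝ) (hb0 : 0 ≤ b) (hb : b < 2) :
    ∃ d : ℕ, 2 ≤ d ∧ ∀ c : ℕ, ∃ h₀ : ℕ, ∀ h, h₀ ≤ h →
      ∀ (C : ℕ → Gate (Finset (Fin (d * (2 * h))))) (out : ℕ), Decomposable C out →
        Solves C out d (2 * h) →
        (c : ℝ) * b ^ (d * (2 * h)) *
          ((d * (2 * h) : ℕ) + ((d * (2 * h)).choose d : ℕ) : ℝ) ^ c < (numAnd C out : ℝ) := by
  obtain ⟨d, hd, H⟩ := MP_8fffab_lc_Linear.numeric_bound b hb0 hb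
  refine ⟨d, hd, fun c => ?_⟩
  obtain ⟨h₀, hh₀⟩ := H c
  refine ⟨h₀, fun h hh C out hdec hC => ?_⟩
  obtain ⟨hh1, hlt⟩ := hh₀ h hh
  refine lt_of_lt_of_le hlt ?_
  exact_mod_cast explicit_bound d h (by omega) hh1 C out hdec hC

end Pool.Agent.Lib.MP_8fffab_lc_DNNF
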